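import Mathlib

/-!
# ET0L systems and the number of active letters of a table
-/

set_option autoImplicit false

namespace Pool.Agent.Q321.EL

/-- `Rew s x y`: the word `y` arises from the word `x` by rewriting all letter occurrences
simultaneously and independently, an occurrence of the letter `a` by some word of `s a`. -/
inductive Rew {A B : Type} (s : A → Set (List B)) : List A → List B → Prop
  | nil : Rew s [] []
  | cons {a : A} {u : List B} {x : List A} {y : List B} :
      u ∈ s a → Rew s x y → Rew s (a :: x) (u ++ y)

/-- A table over the alphabet `A`: a finite substitution, i.e. every letter has a finite nonempty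
set of words. -/
structure Table (A : Type) where
  /-- the set of words of a letter -/
  sub : A → Set (List A)
  finite : ∀ a, (sub a).Finite
  nonempty : ∀ a, (sub a).Nonempty

/-- An ET0L system with the terminal alphabet `T`, the set `N` of the other letters (so that the
alphabet is `T ⊕ N`), a finite nonempty set of tables and a nonempty axiom. -/
structure System (T N : Type) where
  /-- the tables -/
  tables : Set (Table (T ⊕ N))
  finite : tables.Finite
  nonempty : tables.Nonempty
  /-- the axiom -/
  start : List (T ⊕ N)
  start_ne : start ≠ []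

variable {T N : Type}

/-- One derivation step. -/
def System.Step (G : System T N) (x y : List (T ⊕ N)) : Prop :=
  ∃ h ∈ G.tables, Rew h.sub x y

/-- The words derivable from the axiom. -/
def System.Reach (G : System T N) (x : List (T ⊕ N)) : Prop :=
  Relation.ReflTransGen G.Step G.start x

/-- The language of the system: the derivable words over the terminal alphabet. -/
def System.Lang (G : System T N) : Set (List T) := {w | G.Reach (w.map Sum.inl)}

/-- At most `k` letters are active in every table. -/
def System.Restricted (G : System T N) (k : ℕ) : Prop :=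
  ∀ h ∈ G.tables, {a | h.sub a ≠ {[a]}}.encard ≤ k

/-- The languages over `T` of the ET0L systems. -/
def ET0L (T : Type) : Set (Set (List T)) :=
  {L | ∃ (N : Type) (_ : Finite N) (G : System T N), L = G.Lang}

/-- The languages over `T` of the `k`-restricted ET0L systems. -/
def ET0Lr (k : ℕ) (T : Type) : Set (Set (List T)) :=
  {L | ∃ (N : Type) (_ : Finite N) (G : System T N), G.Restricted k ∧ L = G.Lang}

/-! ### Parallel rewriting -/

namespace Rew

variable {A B C : Type}

theorem append {s : A → Set (List B)} {x x' : List A} {y y' : List B} (h : Rew s x y)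
    (h' : Rew s x' y') : Rew s (x ++ x') (y ++ y') := by
  induction h with
  | nil => exact h'
  | cons hu _ ih => rw [List.cons_append, List.append_assoc]; exact .cons hu ih

theorem append_inv {s : A → Set (List B)} {x x' : List A} {z : List B}
    (h : Rew s (x ++ x') z) : ∃ y y', z = y ++ y' ∧ Rew s x y ∧ Rew s x' y' := by
  induction x generalizing z with
  | nil => exact ⟨[], z, rfl, .nil, h⟩
  | cons a x ih =>
    rw [List.cons_append] at h
    cases h with
    | @cons _ u _ z' hu hz =>
      obtain ⟨y, y', rfl, h1, h2⟩ := ih hz
      exact ⟨u ++ y, y', by rw [List.append_assoc], .cons hu h1, h2⟩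

theorem mono {s s' : A → Set (List B)} {x : List A} {y : List B} (h : Rew s x y)
    (hs : ∀ a ∈ x, s a ⊆ s' a) : Rew s' x y := by
  induction h with
  | nil => exact .nil
  | cons hu _ ih =>
    exact .cons (hs _ List.mem_cons_self hu) (ih fun a ha => hs a (List.mem_cons_of_mem _ ha))

theorem of_map {s : B → Set (List C)} {f : A → B} {x : List A} {y : List C}
    (h : Rew s (x.map f) y) : Rew (fun a => s (f a)) x y := by
  induction x generalizing y with
  | nil => cases h; exact .nil
  | cons a x ih =>
    rw [List.map_cons] at h
    cases h with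
    | cons hu hz => exact .cons hu (ih hz)

theorem to_map {s : B → Set (List C)} {f : A → B} {x : List A} {y : List C}
    (h : Rew (fun a => s (f a)) x y) : Rew s (x.map f) y := by
  induction h with
  | nil => exact .nil
  | cons hu _ ih => exact .cons hu ih

/-- letters with a single one-letter word -/
theorem eq_map {s : A → Set (List B)} {g : A → B} {x : List A} {y : List B} (h : Rew s x y)
    (hs : ∀ a ∈ x, s a = {[g a]}) : y = x.map g := by
  induction h with
  | nil => rfl
  | @cons a u x y hu _ ih =>
    rw [hs _ List.mem_cons_self] at hu
    rw [Set.mem_singleton_iff.1 hu, ih fun a ha => hs a (List.mem_cons_of_mem _ ha)]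
    rfl

theorem map_self {s : A → Set (List B)} {g : A → B} (x : List A) (hs : ∀ a ∈ x, [g a] ∈ s a) :
    Rew s x (x.map g) := by
  induction x with
  | nil => exact .nil
  | cons a x ih =>
    exact .cons (u := [g a]) (hs a List.mem_cons_self)
      (ih fun a ha => hs a (List.mem_cons_of_mem _ ha))

theorem map_map {s : B → Set (List C)} {f : A → B} {g : A → C} (x : List A)
    (hs : ∀ a ∈ x, [g a] ∈ s (f a)) : Rew s (x.map f) (x.map g) :=
  to_map (map_self (s := fun a => s (f a)) x hs)

theorem mapR {s : A → Set (List B)} {f : B → C} {x : List A} {y : List B} (h : Rew s x y) :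
    Rew (fun a => (List.map f) '' s a) x (y.map f) := by
  induction h with
  | nil => exact .nil
  | cons hu _ ih => rw [List.map_append]; exact .cons ⟨_, hu, rfl⟩ ih

theorem of_mapR {s : A → Set (List B)} {f : B → C} {x : List A} {z : List C}
    (h : Rew (fun a => (List.map f) '' s a) x z) : ∃ y, z = y.map f ∧ Rew s x y := by
  induction h with
  | nil => exact ⟨[], rfl, .nil⟩
  | cons hu _ ih =>
    obtain ⟨v, hv, rfl⟩ := hu
    obtain ⟨y, rfl, hy⟩ := ih
    exact ⟨v ++ y, by rw [List.map_append], .cons hv hy⟩

/-- if a letter is certainly rewritten by a word with the letter `b`, then `b` occurs -/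
theorem mem_of_mem {s : A → Set (List B)} {x : List A} {y : List B} (h : Rew s x y) {a : A}
    {b : B} (ha : a ∈ x) (hs : s a = {[b]}) : b ∈ y := by
  induction h with
  | nil => cases ha
  | @cons a' u x y hu _ ih =>
    rw [List.mem_append]
    rcases List.mem_cons.1 ha with rfl | h1
    · rw [hs] at hu
      rw [Set.mem_singleton_iff.1 hu]
      exact Or.inl (List.mem_singleton_self _)
    · exact Or.inr (ih h1)

/-- composition -/
theorem comp {s : A → Set (List B)} {s' : B → Set (List C)} {s'' : A → Set (List C)}
    {x : List A} {y : List B} {z : List C} (h : Rew s x y) (h' : Rew s' y z)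
    (hs : ∀ a ∈ x, ∀ u ∈ s a, ∀ v, Rew s' u v → v ∈ s'' a) : Rew s'' x z := by
  induction h generalizing z with
  | nil => cases h'; exact .nil
  | cons hu _ ih =>
    obtain ⟨v, z', rfl, h1, h2⟩ := append_inv h'
    exact .cons (hs _ List.mem_cons_self _ hu _ h1)
      (ih h2 fun a ha => hs a (List.mem_cons_of_mem _ ha))

/-- factorization -/
theorem factor {s : A → Set (List B)} {s' : B → Set (List C)} {s'' : A → Set (List C)}
    {x : List A} {z : List C} (h : Rew s'' x z)
    (hs : ∀ a, ∀ v ∈ s'' a, ∃ u ∈ s a, Rew s' u v) : ∃ y, Rew s x y ∧ Rew s' y z := by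
  induction h with
  | nil => exact ⟨[], .nil, .nil⟩
  | cons hu _ ih =>
    obtain ⟨u, hu, h1⟩ := hs _ _ hu
    obtain ⟨y, hy, h2⟩ := ih
    exact ⟨u ++ y, .cons hu hy, h1.append h2⟩

end Rew

end Pool.Agent.Q321.EL
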