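import Pool.Agent.Q321.EL.Basic

/-!
# Controlled rewriting of one letter at a time by tables with three active letters

The control state `s` is stored by the set of all letters `z t` with `t ≠ s`.
-/

set_option autoImplicit false

namespace Pool.Agent.Q321.EL

open Sum

/-- A system with states in which one nonterminal letter is rewritten in each step. -/
structure Ctl (T M S : Type) where
  /-- the actions -/
  Act : Type
  fin : Finite Act
  ne : Nonempty Act
  /-- the state before the action -/
  src : Act → S
  /-- the state after the action -/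
  tgt : Act → S
  src_ne : ∀ a, src a ≠ tgt a
  /-- the rewritten letter -/
  letter : Act → M
  /-- its words -/
  rep : Act → Set (List (T ⊕ M))
  rep_fin : ∀ a, (rep a).Finite
  rep_ne : ∀ a, (rep a).Nonempty
  /-- the axiom -/
  start : List (T ⊕ M)
  start_ne : start ≠ []
  /-- the initial state -/
  s0 : S
  /-- the final state -/
  sf : S
  /-- the dead letter -/
  dead : M
  dead_rep : ∀ a, letter a = dead → rep a = {[inr dead]}

variable {T M S : Type}

namespace Ctl

open Classical in
/-- the substitution of an action -/
noncomputable def csub (c : Ctl T M S) (a : c.Act) : T ⊕ M → Set (List (T ⊕ M)) :=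
  fun b => if b = inr (c.letter a) then c.rep a else {[b]}

/-- a step -/
def Step (c : Ctl T M S) (p q : S × List (T ⊕ M)) : Prop :=
  ∃ a : c.Act, c.src a = p.1 ∧ c.tgt a = q.1 ∧ Rew (c.csub a) p.2 q.2

/-- reachable configurations -/
def Reach (c : Ctl T M S) (s : S) (d : List (T ⊕ M)) : Prop :=
  Relation.ReflTransGen c.Step (c.s0, c.start) (s, d)

/-- the language -/
def Lang (c : Ctl T M S) : Set (List T) := {w | c.Reach c.sf (w.map inl)}

theorem Reach.step {c : Ctl T M S} {s s' : S} {d d' : List (T ⊕ M)} (h : c.Reach s d)
    (a : c.Act) (h1 : c.src a = s) (h2 : c.tgt a = s') (h3 : Rew (c.csub a) d d') :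
    c.Reach s' d' :=
  Relation.ReflTransGen.tail h ⟨a, h1, h2, h3⟩

/-- the embedding of the data letters -/
def em : T ⊕ M → T ⊕ (M ⊕ S)
  | inl t => inl t
  | inr m => inr (inl m)

/-- the lock of a state -/
def z (s : S) : T ⊕ (M ⊕ S) := inr (inr s)

theorem em_injective : Function.Injective (em : T ⊕ M → T ⊕ (M ⊕ S)) := by
  rintro (a | a) (b | b) h <;> simp_all [em]

theorem em_map_inl (w : List T) :
    (w.map inl : List (T ⊕ M)).map (em : T ⊕ M → T ⊕ (M ⊕ S)) = w.map inl := by
  rw [List.map_map]
  rfl

open Classical in
/-- the words of a letter in the table of an action -/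
noncomputable def actSub (c : Ctl T M S) (a : c.Act) :
    T ⊕ (M ⊕ S) → Set (List (T ⊕ (M ⊕ S)))
  | inl t => {[inl t]}
  | inr (inl m) => if m = c.letter a then (List.map em) '' c.rep a else {[inr (inl m)]}
  | inr (inr t) => if t = c.tgt a then {[z (c.src a)]} else
      if t = c.src a then {[inr (inl c.dead)]} else {[z t]}

/-- the table of an action -/
noncomputable def actTable (c : Ctl T M S) (a : c.Act) : Table (T ⊕ (M ⊕ S)) where
  sub := c.actSub a
  finite := by
    rintro (t | m | t) <;> unfold actSub <;> dsimp only
    · exact Set.finite_singleton _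
    · split_ifs
      · exact (c.rep_fin a).image _
      · exact Set.finite_singleton _
    · split_ifs <;> exact Set.finite_singleton _
  nonempty := by
    rintro (t | m | t) <;> unfold actSub <;> dsimp only
    · exact Set.singleton_nonempty _
    · split_ifs
      · exact (c.rep_ne a).image _
      · exact Set.singleton_nonempty _
    · split_ifs <;> exact Set.singleton_nonempty _

open Classical in
/-- the words of a letter in the table that erases the lock of `s` -/
noncomputable def eraSub (c : Ctl T M S) (s : S) :
    T ⊕ (M ⊕ S) → Set (List (T ⊕ (M ⊕ S)))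
  | inl t => {[inl t]}
  | inr (inl m) => {[inr (inl m)]}
  | inr (inr t) => if t = s then {[]} else
      if t = c.sf then {[inr (inl c.dead)]} else {[z t]}

/-- the table that erases the lock of `s` -/
noncomputable def eraTable (c : Ctl T M S) (s : S) : Table (T ⊕ (M ⊕ S)) where
  sub := c.eraSub s
  finite := by
    rintro (t | m | t) <;> unfold eraSub <;> dsimp only
    · exact Set.finite_singleton _
    · exact Set.finite_singleton _
    · split_ifs <;> exact Set.finite_singleton _
  nonempty := by
    rintro (t | m | t) <;> unfold eraSub <;> dsimp only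
    · exact Set.singleton_nonempty _
    · exact Set.singleton_nonempty _
    · split_ifs <;> exact Set.singleton_nonempty _

/-- the locks at the beginning -/
noncomputable def locks [Finite S] (c : Ctl T M S) : List S := by
  classical
  haveI := Fintype.ofFinite S
  exact (Finset.univ.filter (fun t => t ≠ c.s0)).toList

theorem mem_locks [Finite S] (c : Ctl T M S) (t : S) : t ∈ c.locks ↔ t ≠ c.s0 := by
  classical
  unfold locks
  simp

/-- the ET0L system -/
noncomputable def toSys [Finite S] (c : Ctl T M S) : System T (M ⊕ S) where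
  tables := Set.range c.actTable ∪ c.eraTable '' {s | s ≠ c.sf}
  finite := by
    haveI := c.fin
    exact (Set.finite_range _).union ((Set.toFinite _).image _)
  nonempty := by
    haveI := c.ne
    exact (Set.range_nonempty _).inl
  start := c.start.map em ++ c.locks.map z
  start_ne := by
    intro h
    rw [List.append_eq_nil_iff, List.map_eq_nil_iff] at h
    exact c.start_ne h.1

theorem restricted [Finite S] (c : Ctl T M S) : c.toSys.Restricted 3 := by
  classical
  rintro h (⟨a, rfl⟩ | ⟨s, hs, rfl⟩)
  · have hsub : {b | (c.actTable a).sub b ≠ {[b]}} ⊆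
        {inr (inl (c.letter a)), z (c.tgt a), z (c.src a)} := by
      rintro (t | m | t) hb
      · exact absurd rfl hb
      · by_cases hm : m = c.letter a
        · subst hm; exact Or.inl rfl
        · exfalso
          apply hb
          show c.actSub a (inr (inl m)) = _
          unfold actSub
          simp only [if_neg hm]
      · by_cases h1 : t = c.tgt a
        · subst h1; exact Or.inr (Or.inl rfl)
        · by_cases h2 : t = c.src a
          · subst h2; exact Or.inr (Or.inr rfl)
          · exfalso
            apply hb
            show c.actSub a (inr (inr t)) = _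
            unfold actSub
            simp only [if_neg h1, if_neg h2]
            rfl
    refine (Set.encard_le_encard hsub).trans ?_
    refine (Set.encard_insert_le _ _).trans ?_
    refine (add_le_add_left (Set.encard_insert_le _ _) 1).trans ?_
    rw [Set.encard_singleton]
    norm_num
  · have hsub : {b | (c.eraTable s).sub b ≠ {[b]}} ⊆
        {(z s : T ⊕ (M ⊕ S)), z c.sf, z c.sf} := by
      rintro (t | m | t) hb
      · exact absurd rfl hb
      · exact absurd rfl hb
      · by_cases h1 : t = s
        · subst h1; exact Or.inl rfl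
        · by_cases h2 : t = c.sf
          · subst h2; exact Or.inr (Or.inl rfl)
          · exfalso
            apply hb
            show c.eraSub s (inr (inr t)) = _
            unfold eraSub
            simp only [if_neg h1, if_neg h2]
            rfl
    refine (Set.encard_le_encard hsub).trans ?_
    refine (Set.encard_insert_le _ _).trans ?_
    refine (add_le_add_left (Set.encard_insert_le _ _) 1).trans ?_
    rw [Set.encard_singleton]
    norm_num

/-! ### The invariant -/

/-- the invariant of the derivable words -/
def Inv (c : Ctl T M S) (x : List (T ⊕ (M ⊕ S))) : Prop :=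
  (∃ (s : S) (d : List (T ⊕ M)) (l : List S), x = d.map em ++ l.map z ∧ (∀ t, t ∈ l ↔ t ≠ s) ∧
    c.Reach s d) ∨
  (∃ (w : List T) (l : List S), x = w.map inl ++ l.map z ∧ w ∈ c.Lang) ∨
  inr (inl c.dead) ∈ x

theorem actSub_dead (c : Ctl T M S) (a : c.Act) :
    c.actSub a (inr (inl c.dead)) = {[inr (inl c.dead)]} := by
  unfold actSub
  dsimp only
  split_ifs with h
  · rw [c.dead_rep a h.symm, Set.image_singleton]
    rfl
  · rfl

theorem actSub_src (c : Ctl T M S) (a : c.Act) :
    c.actSub a (z (c.src a)) = {[inr (inl c.dead)]} := by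
  unfold actSub z
  dsimp only
  rw [if_neg (c.src_ne a), if_pos rfl]

theorem actSub_lock (c : Ctl T M S) (a : c.Act) {t : S} (h : t ≠ c.src a) [Decidable (t = c.tgt a)] :
    c.actSub a (z t) = {[z (if t = c.tgt a then c.src a else t)]} := by
  unfold actSub z
  dsimp only
  split_ifs <;> rfl

theorem actSub_em (c : Ctl T M S) (a : c.Act) (b : T ⊕ M) :
    c.actSub a (em b) = (List.map em) '' c.csub a b := by
  classical
  rcases b with t | m
  · unfold actSub em csub
    dsimp only
    rw [if_neg (by simp), Set.image_singleton]
    rfl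
  · unfold csub
    by_cases h : m = c.letter a
    · unfold actSub
      simp only [em, h, if_true]
    · rw [if_neg (by simpa using h), Set.image_singleton]
      unfold actSub
      simp only [em, if_neg h]
      rfl

theorem eraSub_sf (c : Ctl T M S) {s : S} (h : s ≠ c.sf) :
    c.eraSub s (z c.sf) = {[inr (inl c.dead)]} := by
  unfold eraSub z
  dsimp only
  rw [if_neg (Ne.symm h), if_pos rfl]

/-- locks under the table of an action -/
theorem act_locks (c : Ctl T M S) (a : c.Act) (l : List S) (y : List (T ⊕ (M ⊕ S)))
    (h : Rew (c.actSub a) (l.map z) y) :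
    inr (inl c.dead) ∈ y ∨ (c.src a ∉ l ∧ ∃ l' : List S, y = l'.map z ∧
      ∀ t, (∀ u, u ∈ l ↔ u ≠ c.src a) → (t ∈ l' ↔ t ≠ c.tgt a)) := by
  classical
  by_cases hs : c.src a ∈ l
  · left
    exact h.mem_of_mem (List.mem_map_of_mem hs) (c.actSub_src a)
  · right
    refine ⟨hs, l.map (fun t => if t = c.tgt a then c.src a else t), ?_, ?_⟩
    · have h2 := Rew.of_map h
      rw [h2.eq_map (g := fun t => z (if t = c.tgt a then c.src a else t)), List.map_map]
      · rfl
      · intro t ht
        exact c.actSub_lock a (fun h0 => hs (h0 ▸ ht))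
    · intro t hl
      rw [List.mem_map]
      constructor
      · rintro ⟨u, hu, rfl⟩
        split_ifs with h1
        · exact c.src_ne a
        · exact h1
      · intro ht
        by_cases h1 : t = c.src a
        · exact ⟨c.tgt a, (hl _).2 (Ne.symm (c.src_ne a)), by rw [if_pos rfl, h1]⟩
        · exact ⟨t, (hl _).2 h1, by rw [if_neg ht]⟩

/-- locks under an erasing table -/
theorem era_locks (c : Ctl T M S) {s : S} (hs : s ≠ c.sf) (l : List S)
    (y : List (T ⊕ (M ⊕ S))) (h : Rew (c.eraSub s) (l.map z) y) :
    inr (inl c.dead) ∈ y ∨ (c.sf ∉ l ∧ ∃ l' : List S, y = l'.map z) := by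
  classical
  by_cases hf : c.sf ∈ l
  · left
    exact h.mem_of_mem (List.mem_map_of_mem hf) (c.eraSub_sf hs)
  · right
    refine ⟨hf, ?_⟩
    have h2 := Rew.of_map h
    clear h
    induction h2 with
    | nil => exact ⟨[], rfl⟩
    | @cons t u l y hu _ ih =>
      obtain ⟨l', rfl⟩ := ih (fun h0 => hf (List.mem_cons_of_mem _ h0))
      unfold eraSub z at hu
      dsimp only at hu
      split_ifs at hu with h1 h2
      · rw [Set.mem_singleton_iff.1 hu]
        exact ⟨l', rfl⟩
      · exact absurd (h2 ▸ List.mem_cons_self) hf
      · rw [Set.mem_singleton_iff.1 hu]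
        exact ⟨t :: l', rfl⟩

theorem rew_inl {s : T ⊕ (M ⊕ S) → Set (List (T ⊕ (M ⊕ S)))} (hs : ∀ t, s (inl t) = {[inl t]})
    {w : List T} {y : List (T ⊕ (M ⊕ S))} (h : Rew s (w.map inl) y) : y = w.map inl :=
  (Rew.of_map h).eq_map (fun a _ => hs a)

/-- the final configurations are terminal or dead -/
def Fine (c : Ctl T M S) : Prop :=
  ∀ d, c.Reach c.sf d → (∃ w : List T, d = w.map inl) ∨ inr c.dead ∈ d

theorem inv_step [Finite S] (c : Ctl T M S) (hc : c.Fine) {x y : List (T ⊕ (M ⊕ S))}
    (hx : c.Inv x) (hxy : c.toSys.Step x y) : c.Inv y := by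
  classical
  obtain ⟨h, hh, hr⟩ := hxy
  rcases hh with ⟨a, rfl⟩ | ⟨s1, hs1, rfl⟩
  · change Rew (c.actSub a) x y at hr
    rcases hx with ⟨s, d, l, rfl, hl, hd⟩ | ⟨w, l, rfl, hw⟩ | hx
    · obtain ⟨y1, y2, rfl, h1, h2⟩ := hr.append_inv
      rcases c.act_locks a l y2 h2 with h3 | ⟨h3, l', rfl, h4⟩
      · exact Or.inr (Or.inr (List.mem_append_right _ h3))
      · left
        have hsa : c.src a = s := by
          by_contra h5
          exact h3 ((hl _).2 h5)
        have h5 := Rew.of_map h1
        obtain ⟨d', rfl, h6⟩ := (h5.mono (s' := fun b => (List.map em) '' c.csub a b)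
          (fun b _ => (c.actSub_em a b).subset)).of_mapR
        exact ⟨c.tgt a, d', l', rfl, fun t => h4 t (fun u => by rw [hl u, hsa]),
          hd.step a hsa rfl h6⟩
    · obtain ⟨y1, y2, rfl, h1, h2⟩ := hr.append_inv
      rcases c.act_locks a l y2 h2 with h3 | ⟨h3, l', rfl, h4⟩
      · exact Or.inr (Or.inr (List.mem_append_right _ h3))
      · refine Or.inr (Or.inl ⟨w, l', ?_, hw⟩)
        rw [rew_inl (fun t => rfl) h1]
    · exact Or.inr (Or.inr (hr.mem_of_mem hx (c.actSub_dead a)))
  · change Rew (c.eraSub s1) x y at hr
    rcases hx with ⟨s, d, l, rfl, hl, hd⟩ | ⟨w, l, rfl, hw⟩ | hx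
    · obtain ⟨y1, y2, rfl, h1, h2⟩ := hr.append_inv
      rcases c.era_locks hs1 l y2 h2 with h3 | ⟨h3, l', rfl⟩
      · exact Or.inr (Or.inr (List.mem_append_right _ h3))
      · have hsf : c.sf = s := by
          by_contra h5
          exact h3 ((hl _).2 h5)
        subst hsf
        rcases hc d hd with ⟨w, rfl⟩ | hdead
        · refine Or.inr (Or.inl ⟨w, l', ?_, hd⟩)
          rw [em_map_inl] at h1
          rw [rew_inl (fun t => rfl) h1]
        · refine Or.inr (Or.inr (List.mem_append_left _ ?_))
          exact h1.mem_of_mem (a := inr (inl c.dead))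
            (List.mem_map.2 ⟨inr c.dead, hdead, rfl⟩) rfl
    · obtain ⟨y1, y2, rfl, h1, h2⟩ := hr.append_inv
      rcases c.era_locks hs1 l y2 h2 with h3 | ⟨h3, l', rfl⟩
      · exact Or.inr (Or.inr (List.mem_append_right _ h3))
      · refine Or.inr (Or.inl ⟨w, l', ?_, hw⟩)
        rw [rew_inl (fun t => rfl) h1]
    · exact Or.inr (Or.inr (hr.mem_of_mem hx rfl))

theorem inv_reach [Finite S] (c : Ctl T M S) (hc : c.Fine) {x : List (T ⊕ (M ⊕ S))}
    (hx : c.toSys.Reach x) : c.Inv x := by
  induction hx with
  | refl =>
    exact Or.inl ⟨c.s0, c.start, c.locks, rfl, c.mem_locks, Relation.ReflTransGen.refl⟩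
  | tail _ hs ih => exact c.inv_step hc ih hs

theorem append_eq_map_inl {d : List (T ⊕ (M ⊕ S))} {l : List S} {w : List T}
    (h : w.map inl = d ++ l.map z) : l = [] ∧ d = w.map inl := by
  cases l with
  | nil => exact ⟨rfl, by rw [List.map_nil, List.append_nil] at h; exact h.symm⟩
  | cons s l =>
    exfalso
    have : z s ∈ (w.map inl : List (T ⊕ (M ⊕ S))) := by
      rw [h]
      exact List.mem_append_right _ List.mem_cons_self
    obtain ⟨t, _, ht⟩ := List.mem_map.1 this
    exact absurd ht (by simp [z])

theorem lang_sound [Finite S] (c : Ctl T M S) (hc : c.Fine) : c.toSys.Lang ⊆ c.Lang := by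
  intro w hw
  rcases c.inv_reach hc hw with ⟨s, d, l, h, hl, hd⟩ | ⟨w', l, h, hw'⟩ | h
  · obtain ⟨rfl, h2⟩ := append_eq_map_inl h
    have hs : c.sf = s := by
      by_contra h5
      exact absurd ((hl _).2 h5) (List.not_mem_nil)
    subst hs
    rw [← em_map_inl] at h2
    have h3 := (List.map_injective_iff.2 em_injective) h2
    subst h3
    exact hd
  · obtain ⟨rfl, h2⟩ := append_eq_map_inl h
    have h3 := (List.map_injective_iff.2 inl_injective) h2
    subst h3
    exact hw'
  · obtain ⟨t, _, ht⟩ := List.mem_map.1 h
    exact absurd ht (by simp)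

/-! ### Completeness -/

theorem reach_of [Finite S] (c : Ctl T M S) {p : S × List (T ⊕ M)}
    (h : Relation.ReflTransGen c.Step (c.s0, c.start) p) :
    ∃ l : List S, (∀ t, t ∈ l ↔ t ≠ p.1) ∧ c.toSys.Reach (p.2.map em ++ l.map z) := by
  classical
  induction h with
  | refl => exact ⟨c.locks, c.mem_locks, Relation.ReflTransGen.refl⟩
  | @tail p q _ hs ih =>
    obtain ⟨l, hl, hr⟩ := ih
    obtain ⟨a, h1, h2, h3⟩ := hs
    have key : Rew (c.actSub a) (l.map z)
        ((l.map (fun t => if t = c.tgt a then c.src a else t)).map z) := by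
      rw [List.map_map]
      refine Rew.map_map l fun t ht => ?_
      rw [c.actSub_lock a (by rw [h1]; exact (hl t).1 ht)]
      rfl
    refine ⟨l.map (fun t => if t = c.tgt a then c.src a else t), ?_, ?_⟩
    · rcases c.act_locks a l _ key with h4 | ⟨_, l', h5, h6⟩
      · exfalso
        obtain ⟨t, _, ht⟩ := List.mem_map.1 h4
        exact absurd ht (by simp [z])
      · have hz : Function.Injective (z : S → T ⊕ (M ⊕ S)) := by
          intro s t h
          simpa [z] using h
        have h7 := (List.map_injective_iff.2 hz) h5
        rw [h7]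
        intro t
        rw [h6 t (fun u => by rw [hl u, h1]), h2]
    · refine Relation.ReflTransGen.tail hr ⟨c.actTable a, Or.inl ⟨a, rfl⟩, ?_⟩
      refine Rew.append ?_ key
      apply Rew.to_map
      exact h3.mapR.mono fun b _ => (c.actSub_em a b).superset

theorem erase_all [Finite S] (c : Ctl T M S) (w : List T) :
    ∀ (n : ℕ) (l : List S), l.length ≤ n → c.sf ∉ l →
      c.toSys.Reach (w.map inl ++ l.map z) → c.toSys.Reach (w.map inl) := by
  classical
  intro n
  induction n with
  | zero =>
    intro l hl _ hr
    rw [List.length_eq_zero_iff.1 (Nat.le_zero.1 hl), List.map_nil, List.append_nil] at hr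
    exact hr
  | succ n ih =>
    intro l hl hf hr
    cases l with
    | nil => rwa [List.map_nil, List.append_nil] at hr
    | cons s l =>
      have hs : s ≠ c.sf := fun h => hf (h ▸ List.mem_cons_self)
      refine ih (l.filter (fun t => t ≠ s)) ?_ ?_ ?_
      · have := List.length_filter_le (fun t => decide (t ≠ s)) l
        simp only [List.length_cons] at hl
        omega
      · intro h
        exact hf (List.mem_cons_of_mem _ (List.mem_of_mem_filter h))
      · refine Relation.ReflTransGen.tail hr ⟨c.eraTable s, Or.inr ⟨s, hs, rfl⟩, ?_⟩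
        show Rew (c.eraSub s) _ _
        refine Rew.append (Rew.map_map w fun t _ => rfl) ?_
        have key : ∀ l : List S, c.sf ∉ l →
            Rew (c.eraSub s) (l.map z) ((l.filter (fun t => t ≠ s)).map z) := by
          intro l
          induction l with
          | nil => intro _; exact .nil
          | cons t l ih =>
            intro hl
            have h1 := ih (fun h => hl (List.mem_cons_of_mem _ h))
            by_cases hts : t = s
            · subst hts
              rw [List.filter_cons_of_neg (by simp), List.map_cons]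
              refine Rew.cons (u := []) ?_ h1
              unfold eraSub z
              dsimp only
              rw [if_pos rfl]
              exact Set.mem_singleton _
            · rw [List.filter_cons_of_pos (by simpa using hts), List.map_cons, List.map_cons]
              refine Rew.cons (u := [z t]) ?_ h1
              have htf : t ≠ c.sf := fun h => hl (h ▸ List.mem_cons_self)
              unfold eraSub z
              dsimp only
              rw [if_neg hts, if_neg htf]
              exact Set.mem_singleton _
        have h2 := key (s :: l) hf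
        rwa [List.filter_cons_of_neg (by simp)] at h2

theorem lang_complete [Finite S] (c : Ctl T M S) : c.Lang ⊆ c.toSys.Lang := by
  intro w hw
  obtain ⟨l, hl, hr⟩ := c.reach_of hw
  dsimp only at hl hr
  rw [em_map_inl] at hr
  exact c.erase_all w l.length l le_rfl (fun h => (hl _).1 h rfl) hr

/-- **Controlled rewriting by tables with three active letters.** -/
theorem lang_eq [Finite S] (c : Ctl T M S) (hc : c.Fine) : c.toSys.Lang = c.Lang :=
  Set.Subset.antisymm (c.lang_sound hc) c.lang_complete

end Ctl

end Pool.Agent.Q321.EL
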