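import Pool.Agent.Q321.EL.Lock

/-!
# Every ET0L system is simulated by controlled rewriting of one letter at a time
-/

set_option autoImplicit false

namespace Pool.Agent.Q321.EL

open Sum

variable {T N : Type}

/-- The letters of the simulating system: two copies of every letter and a dead letter. -/
inductive Dat (A : Type)
  | d0 (a : A)
  | d1 (a : A)
  | dead

/-- the states of the simulating system -/
inductive St (A H : Type)
  | m (h : H) (S : Finset A)
  | u (S : Finset A)
  | t (S : Finset A)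

/-- the actions of the simulating system -/
inductive Ac (A H : Type)
  | m (h : H) (S : Finset A) (a : A) (ha : a ∉ S)
  | u (S : Finset A) (a : A) (ha : a ∉ S)
  | t (S : Finset A) (a : A) (ha : a ∉ S)
  | p1 (h : H)
  | p2 (h : H)
  | p3

instance {A : Type} [Finite A] : Finite (Dat A) := by
  refine Finite.of_injective (β := Option (A × Bool)) (fun x => match x with
    | .d0 a => some (a, false)
    | .d1 a => some (a, true)
    | .dead => none) ?_
  rintro (a | a | _) (b | b | _) h <;> simp_all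

instance {A H : Type} [Finite A] [Finite H] : Finite (St A H) := by
  refine Finite.of_injective (β := Option H × Bool × Finset A) (fun x => match x with
    | .m h S => (some h, true, S)
    | .u S => (none, true, S)
    | .t S => (none, false, S)) ?_
  rintro (⟨a, b⟩ | a | a) (⟨c, d⟩ | c | c) h <;> simp_all

instance {A H : Type} [Finite A] [Finite H] : Finite (Ac A H) := by
  refine Finite.of_injective (β := Fin 6 × Option H × Finset A × Option A) (fun x => match x with
    | .m h S a _ => (0, some h, S, some a)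
    | .u S a _ => (1, none, S, some a)
    | .t S a _ => (2, none, S, some a)
    | .p1 h => (3, some h, ∅, none)
    | .p2 h => (4, some h, ∅, none)
    | .p3 => (5, none, ∅, none)) ?_
  rintro (⟨a, b, c, d⟩ | ⟨a, b, c⟩ | ⟨a, b, c⟩ | a | a | _)
    (⟨a', b', c', d'⟩ | ⟨a', b', c'⟩ | ⟨a', b', c'⟩ | a' | a' | _) h <;>
  simp_all

/-- letters of the first copy -/
def f0 (a : T ⊕ N) : T ⊕ Dat (T ⊕ N) := inr (.d0 a)

/-- letters of the second copy -/
def f1 (a : T ⊕ N) : T ⊕ Dat (T ⊕ N) := inr (.d1 a)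

/-- final letters -/
def tm : T ⊕ N → T ⊕ Dat (T ⊕ N)
  | inl t => inl t
  | inr _ => inr .dead

theorem f0_inj {a b : T ⊕ N} (h : f0 a = f0 b) : a = b := by
  simpa [f0] using h

theorem f1_inj {a b : T ⊕ N} (h : f1 a = f1 b) : a = b := by
  simpa [f1] using h

section

open Classical

/-- The simulating system. -/
noncomputable def sim [Finite T] [Finite N] (G : System T N) :
    Ctl T (Dat (T ⊕ N)) (St (T ⊕ N) ↥G.tables) where
  Act := Ac (T ⊕ N) ↥G.tables
  fin := by
    haveI : Finite ↥G.tables := G.finite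
    infer_instance
  ne := ⟨.p3⟩
  src := fun
    | .m h S _ _ => .m h S
    | .u S _ _ => .u S
    | .t S _ _ => .t S
    | .p1 _ => .u (@Finset.univ _ (Fintype.ofFinite (T ⊕ N)))
    | .p2 h => .m h (@Finset.univ _ (Fintype.ofFinite (T ⊕ N)))
    | .p3 => .u (@Finset.univ _ (Fintype.ofFinite (T ⊕ N)))
  tgt := fun
    | .m h S a _ => .m h (insert a S)
    | .u S a _ => .u (insert a S)
    | .t S a _ => .t (insert a S)
    | .p1 h => .m h ∅
    | .p2 _ => .u ∅
    | .p3 => .t ∅
  src_ne := by
    rintro (⟨h, S, a, ha⟩ | ⟨S, a, ha⟩ | ⟨S, a, ha⟩ | h | h | _) h0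
    · simp only [St.m.injEq, true_and] at h0
      exact ha (h0 ▸ Finset.mem_insert_self _ _)
    · simp only [St.u.injEq] at h0
      exact ha (h0 ▸ Finset.mem_insert_self _ _)
    · simp only [St.t.injEq] at h0
      exact ha (h0 ▸ Finset.mem_insert_self _ _)
    · exact absurd h0 (by simp)
    · exact absurd h0 (by simp)
    · exact absurd h0 (by simp)
  letter := fun
    | .m _ _ a _ => .d0 a
    | .u _ a _ => .d1 a
    | .t _ a _ => .d0 a
    | .p1 _ => .dead
    | .p2 _ => .dead
    | .p3 => .dead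
  rep := fun
    | .m h _ a _ => (List.map f1) '' h.1.sub a
    | .u _ a _ => {[f0 a]}
    | .t _ a _ => {[tm a]}
    | .p1 _ => {[inr .dead]}
    | .p2 _ => {[inr .dead]}
    | .p3 => {[inr .dead]}
  rep_fin := by
    rintro (⟨h, S, a, ha⟩ | ⟨S, a, ha⟩ | ⟨S, a, ha⟩ | h | h | _)
    · exact (h.1.finite a).image _
    all_goals exact Set.finite_singleton _
  rep_ne := by
    rintro (⟨h, S, a, ha⟩ | ⟨S, a, ha⟩ | ⟨S, a, ha⟩ | h | h | _)
    · exact (h.1.nonempty a).image _
    all_goals exact Set.singleton_nonempty _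
  start := G.start.map f0
  start_ne := by
    intro h
    exact G.start_ne (List.map_eq_nil_iff.1 h)
  s0 := .u (@Finset.univ _ (Fintype.ofFinite (T ⊕ N)))
  sf := .t (@Finset.univ _ (Fintype.ofFinite (T ⊕ N)))
  dead := .dead
  dead_rep := by
    rintro (⟨h, S, a, ha⟩ | ⟨S, a, ha⟩ | ⟨S, a, ha⟩ | h | h | _) h0
    · exact absurd h0 (by simp)
    · exact absurd h0 (by simp)
    · exact absurd h0 (by simp)
    all_goals rfl

variable [Finite T] [Finite N] (G : System T N)

/-- The set of all letters. -/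
noncomputable abbrev UU (T N : Type) [Finite T] [Finite N] : Finset (T ⊕ N) :=
  @Finset.univ _ (Fintype.ofFinite (T ⊕ N))

theorem mem_UU (a : T ⊕ N) : a ∈ UU T N := @Finset.mem_univ _ (Fintype.ofFinite (T ⊕ N)) a

/-- the substitution between the two copies when the letters of `S` are rewritten -/
noncomputable def ms (h : Table (T ⊕ N)) (S : Finset (T ⊕ N)) :
    T ⊕ N → Set (List (T ⊕ Dat (T ⊕ N))) :=
  fun a => if a ∈ S then (List.map f1) '' h.sub a else {[f0 a]}

/-- the invariant of the simulation -/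
def Dinv : St (T ⊕ N) ↥G.tables → List (T ⊕ Dat (T ⊕ N)) → Prop
  | .m h S, d => ∃ x, G.Reach x ∧ Rew (ms h.1 S) x d
  | .u S, d => ∃ x, G.Reach x ∧ d = x.map (fun a => if a ∈ S then f0 a else f1 a)
  | .t S, d => ∃ x, G.Reach x ∧ d = x.map (fun a => if a ∈ S then tm a else f0 a)

theorem csub_dead (b : T ⊕ Dat (T ⊕ N)) (a : (sim G).Act) (h : (sim G).letter a = .dead) :
    (sim G).csub a b = {[b]} := by
  unfold Ctl.csub
  rw [h]
  split_ifs with h1
  · rw [(sim G).dead_rep a h, h1]
    rfl
  · rfl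

theorem map_dead {a : (sim G).Act} (h : (sim G).letter a = .dead) {d d' : List (T ⊕ Dat (T ⊕ N))}
    (hr : Rew ((sim G).csub a) d d') : d' = d := by
  rw [hr.eq_map (g := id) (fun b _ => csub_dead G b a h), List.map_id]

theorem csub_m (h : ↥G.tables) (S : Finset (T ⊕ N)) (a : T ⊕ N) (ha : a ∉ S)
    (b : T ⊕ Dat (T ⊕ N)) : (sim G).csub (Ac.m h S a ha) b =
      if b = f0 a then (List.map f1) '' h.1.sub a else {[b]} := rfl

theorem csub_u (S : Finset (T ⊕ N)) (a : T ⊕ N) (ha : a ∉ S)
    (b : T ⊕ Dat (T ⊕ N)) : (sim G).csub (Ac.u S a ha) b =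
      if b = f1 a then {[f0 a]} else {[b]} := rfl

theorem csub_t (S : Finset (T ⊕ N)) (a : T ⊕ N) (ha : a ∉ S)
    (b : T ⊕ Dat (T ⊕ N)) : (sim G).csub (Ac.t S a ha) b =
      if b = f0 a then {[tm a]} else {[b]} := rfl

theorem dinv_step {s s' : St (T ⊕ N) ↥G.tables} {d d' : List (T ⊕ Dat (T ⊕ N))}
    (hd : Dinv G s d) (hs : (sim G).Step (s, d) (s', d')) : Dinv G s' d' := by
  obtain ⟨a, h1, h2, h3⟩ := hs
  dsimp only at h1 h2 h3
  subst h1 h2
  rcases a with ⟨h, S, a, ha⟩ | ⟨S, a, ha⟩ | ⟨S, a, ha⟩ | h | h | _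
  · obtain ⟨x, hx, hr⟩ := hd
    refine ⟨x, hx, hr.comp h3 ?_⟩
    intro b _ u hu v hv
    unfold ms at hu ⊢
    by_cases hb : b ∈ S
    · rw [if_pos hb] at hu
      rw [if_pos (Finset.mem_insert_of_mem hb)]
      obtain ⟨w, hw, rfl⟩ := hu
      have h4 : v = (w.map f1) := by
        have h5 := (Rew.of_map hv).eq_map (g := f1) (fun c _ => by
          rw [csub_m, if_neg (by simp [f0, f1])])
        exact h5
      exact ⟨w, hw, h4.symm⟩
    · rw [if_neg hb] at hu
      rw [Set.mem_singleton_iff.1 hu] at hv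
      cases hv with
      | cons hu' hz =>
        cases hz
        rw [csub_m] at hu'
        rw [List.append_nil]
        by_cases hba : b = a
        · subst hba
          rw [if_pos rfl] at hu'
          rw [if_pos (Finset.mem_insert_self _ _)]
          exact hu'
        · rw [if_neg (fun h0 => hba (f0_inj h0))] at hu'
          rw [if_neg (by rw [Finset.mem_insert, not_or]; exact ⟨hba, hb⟩)]
          exact hu'
  · obtain ⟨x, hx, rfl⟩ := hd
    refine ⟨x, hx, ?_⟩
    refine (Rew.of_map h3).eq_map fun b _ => ?_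
    rw [csub_u]
    by_cases hba : b = a
    · subst hba
      rw [if_neg ha, if_pos rfl, if_pos (Finset.mem_insert_self _ _)]
    · by_cases hb : b ∈ S
      · rw [if_pos hb, if_neg (by simp [f0, f1]), if_pos (Finset.mem_insert_of_mem hb)]
      · rw [if_neg hb, if_neg (fun h0 => hba (f1_inj h0)),
          if_neg (by rw [Finset.mem_insert, not_or]; exact ⟨hba, hb⟩)]
  · obtain ⟨x, hx, rfl⟩ := hd
    refine ⟨x, hx, ?_⟩
    refine (Rew.of_map h3).eq_map fun b _ => ?_
    rw [csub_t]
    by_cases hba : b = a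
    · subst hba
      rw [if_neg ha, if_pos rfl, if_pos (Finset.mem_insert_self _ _)]
    · by_cases hb : b ∈ S
      · rw [if_pos hb, if_pos (Finset.mem_insert_of_mem hb), if_neg]
        rcases b with t | n <;> simp [tm, f0]
      · rw [if_neg hb, if_neg (fun h0 => hba (f0_inj h0)),
          if_neg (by rw [Finset.mem_insert, not_or]; exact ⟨hba, hb⟩)]
  · obtain ⟨x, hx, rfl⟩ := hd
    refine ⟨x, hx, ?_⟩
    rw [map_dead G (a := Ac.p1 h) rfl h3]
    refine Rew.map_self x fun b _ => ?_
    rw [if_pos (mem_UU b)]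
    unfold ms
    rw [if_neg (Finset.notMem_empty _)]
    exact Set.mem_singleton _
  · obtain ⟨x, hx, hr⟩ := hd
    rw [map_dead G (a := Ac.p2 h) rfl h3]
    obtain ⟨y, rfl, hy⟩ := (hr.mono (s' := fun a => (List.map f1) '' h.1.sub a) (fun b _ => by
      unfold ms
      rw [if_pos (mem_UU b)])).of_mapR
    refine ⟨y, Relation.ReflTransGen.tail hx ⟨h.1, h.2, hy⟩, ?_⟩
    refine List.map_congr_left fun b _ => ?_
    rw [if_neg (Finset.notMem_empty _)]
  · obtain ⟨x, hx, rfl⟩ := hd
    refine ⟨x, hx, ?_⟩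
    rw [map_dead G (a := Ac.p3) rfl h3]
    refine List.map_congr_left fun b _ => ?_
    rw [if_pos (mem_UU b), if_neg (Finset.notMem_empty _)]

theorem dinv_reach {p : St (T ⊕ N) ↥G.tables × List (T ⊕ Dat (T ⊕ N))}
    (h : Relation.ReflTransGen (sim G).Step ((sim G).s0, (sim G).start) p) :
    Dinv G p.1 p.2 := by
  induction h with
  | refl =>
    refine ⟨G.start, Relation.ReflTransGen.refl, ?_⟩
    refine List.map_congr_left fun b _ => ?_
    rw [if_pos (mem_UU b)]
  | tail _ hs ih => exact dinv_step G ih hs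

theorem sim_final {d : List (T ⊕ Dat (T ⊕ N))} (h : (sim G).Reach (sim G).sf d) :
    ∃ x, G.Reach x ∧ d = x.map tm := by
  obtain ⟨x, hx, rfl⟩ := dinv_reach G h
  refine ⟨x, hx, List.map_congr_left fun b _ => ?_⟩
  rw [if_pos (mem_UU b)]

theorem map_tm_cases (x : List (T ⊕ N)) :
    (∃ w : List T, x = w.map inl ∧ x.map tm = w.map inl) ∨
      (inr Dat.dead : T ⊕ Dat (T ⊕ N)) ∈ x.map tm := by
  induction x with
  | nil => exact Or.inl ⟨[], rfl, rfl⟩
  | cons a x ih =>
    rcases a with t | n
    · rcases ih with ⟨w, rfl, h⟩ | h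
      · exact Or.inl ⟨t :: w, rfl, by rw [List.map_cons, h]; rfl⟩
      · exact Or.inr (List.mem_cons_of_mem _ h)
    · exact Or.inr List.mem_cons_self

theorem sim_fine : (sim G).Fine := by
  intro d hd
  obtain ⟨x, _, rfl⟩ := sim_final G hd
  rcases map_tm_cases x with ⟨w, _, h⟩ | h
  · exact Or.inl ⟨w, h⟩
  · exact Or.inr h

theorem sim_sound : (sim G).Lang ⊆ G.Lang := by
  intro w hw
  obtain ⟨x, hx, h⟩ := sim_final G hw
  rcases map_tm_cases x with ⟨w', rfl, h1⟩ | h1
  · rw [h1] at h
    have := (List.map_injective_iff.2 inl_injective) h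
    subst this
    exact hx
  · exfalso
    rw [← h] at h1
    obtain ⟨t, _, ht⟩ := List.mem_map.1 h1
    exact absurd ht (by simp)

/-! ### Completeness -/

theorem reach_dead {s s' : St (T ⊕ N) ↥G.tables} {d : List (T ⊕ Dat (T ⊕ N))}
    (h : (sim G).Reach s d) (a : (sim G).Act) (h0 : (sim G).letter a = .dead)
    (h1 : (sim G).src a = s) (h2 : (sim G).tgt a = s') : (sim G).Reach s' d := by
  refine h.step a h1 h2 ?_
  have := Rew.map_self (s := (sim G).csub a) (g := id) d (fun b _ => by
    rw [csub_dead G b a h0]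
    exact Set.mem_singleton _)
  rwa [List.map_id] at this

theorem phase_m (h : ↥G.tables) (x : List (T ⊕ N)) (h0 : (sim G).Reach (.m h ∅) (x.map f0))
    (S : Finset (T ⊕ N)) : ∀ d, Rew (ms h.1 S) x d → (sim G).Reach (.m h S) d := by
  induction S using Finset.induction_on with
  | empty =>
    intro d hd
    rw [hd.eq_map (g := f0) (fun a _ => by unfold ms; rw [if_neg (Finset.notMem_empty _)])]
    exact h0
  | insert a S ha ih =>
    intro d hd
    obtain ⟨d0, h1, h2⟩ := hd.factor (s := ms h.1 S) (s' := (sim G).csub (Ac.m h S a ha)) (by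
      intro b v hv
      unfold ms at hv ⊢
      by_cases hb : b ∈ S
      · rw [if_pos (Finset.mem_insert_of_mem hb)] at hv
        rw [if_pos hb]
        obtain ⟨w, hw, rfl⟩ := hv
        refine ⟨w.map f1, ⟨w, hw, rfl⟩, Rew.map_map w fun c _ => ?_⟩
        rw [csub_m, if_neg (by simp [f0, f1])]
        exact Set.mem_singleton _
      · rw [if_neg hb]
        refine ⟨[f0 b], Set.mem_singleton _, ?_⟩
        rw [← List.append_nil v]
        refine Rew.cons ?_ .nil
        rw [csub_m]
        by_cases hba : b = a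
        · subst hba
          rw [if_pos (Finset.mem_insert_self _ _)] at hv
          rwa [if_pos rfl]
        · rw [if_neg (by rw [Finset.mem_insert, not_or]; exact ⟨hba, hb⟩)] at hv
          rwa [if_neg (fun h0 => hba (f0_inj h0))])
    exact (ih d0 h1).step (Ac.m h S a ha) rfl rfl h2

theorem phase_u (x : List (T ⊕ N)) (h0 : (sim G).Reach (.u ∅) (x.map f1))
    (S : Finset (T ⊕ N)) :
    (sim G).Reach (.u S) (x.map (fun a => if a ∈ S then f0 a else f1 a)) := by
  induction S using Finset.induction_on with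
  | empty =>
    rw [List.map_congr_left (g := f1) (fun b _ => by rw [if_neg (Finset.notMem_empty _)])]
    exact h0
  | insert a S ha ih =>
    refine ih.step (Ac.u S a ha) rfl rfl (Rew.map_map x fun b _ => ?_)
    rw [csub_u]
    by_cases hba : b = a
    · subst hba
      rw [if_neg ha, if_pos rfl, if_pos (Finset.mem_insert_self _ _)]
      exact Set.mem_singleton _
    · by_cases hb : b ∈ S
      · rw [if_pos hb, if_neg (by simp [f0, f1]), if_pos (Finset.mem_insert_of_mem hb)]
        exact Set.mem_singleton _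
      · rw [if_neg hb, if_neg (fun h0 => hba (f1_inj h0)),
          if_neg (by rw [Finset.mem_insert, not_or]; exact ⟨hba, hb⟩)]
        exact Set.mem_singleton _

theorem phase_t (x : List (T ⊕ N)) (h0 : (sim G).Reach (.t ∅) (x.map f0))
    (S : Finset (T ⊕ N)) :
    (sim G).Reach (.t S) (x.map (fun a => if a ∈ S then tm a else f0 a)) := by
  induction S using Finset.induction_on with
  | empty =>
    rw [List.map_congr_left (g := f0) (fun b _ => by rw [if_neg (Finset.notMem_empty _)])]
    exact h0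
  | insert a S ha ih =>
    refine ih.step (Ac.t S a ha) rfl rfl (Rew.map_map x fun b _ => ?_)
    rw [csub_t]
    by_cases hba : b = a
    · subst hba
      rw [if_neg ha, if_pos rfl, if_pos (Finset.mem_insert_self _ _)]
      exact Set.mem_singleton _
    · by_cases hb : b ∈ S
      · rw [if_pos hb, if_pos (Finset.mem_insert_of_mem hb), if_neg]
        · exact Set.mem_singleton _
        · rcases b with t | n <;> simp [tm, f0]
      · rw [if_neg hb, if_neg (fun h0 => hba (f0_inj h0)),
          if_neg (by rw [Finset.mem_insert, not_or]; exact ⟨hba, hb⟩)]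
        exact Set.mem_singleton _

theorem sim_reach {x : List (T ⊕ N)} (hx : G.Reach x) :
    (sim G).Reach (.u (UU T N)) (x.map f0) := by
  induction hx with
  | refl => exact Relation.ReflTransGen.refl
  | @tail x y _ hs ih =>
    obtain ⟨h, hh, hr⟩ := hs
    have h1 := reach_dead G ih (Ac.p1 ⟨h, hh⟩) rfl rfl (s' := .m ⟨h, hh⟩ ∅) rfl
    have h2 := phase_m G ⟨h, hh⟩ x h1 (UU T N) (y.map f1) (hr.mapR.mono fun b _ => by
      unfold ms
      rw [if_pos (mem_UU b)])
    have h3 := reach_dead G h2 (Ac.p2 ⟨h, hh⟩) rfl rfl (s' := .u ∅) rfl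
    have h4 := phase_u G y h3 (UU T N)
    rwa [List.map_congr_left (g := f0) (fun b _ => by rw [if_pos (mem_UU b)])] at h4

theorem sim_complete : G.Lang ⊆ (sim G).Lang := by
  intro w hw
  have h1 := sim_reach G hw
  have h2 := reach_dead G h1 Ac.p3 rfl rfl (s' := .t ∅) rfl
  have h3 := phase_t G _ h2 (UU T N)
  rw [List.map_congr_left (g := tm) (fun b _ => by rw [if_pos (mem_UU b)]), List.map_map] at h3
  exact h3

/-- **The simulation.** -/
theorem sim_lang : (sim G).Lang = G.Lang :=
  Set.Subset.antisymm (sim_sound G) (sim_complete G)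

end

/-- **Three active letters suffice.** -/
theorem et0l_subset (T : Type) [Finite T] : ET0L T ⊆ ET0Lr 3 T := by
  rintro L ⟨N, hN, G, rfl⟩
  haveI : Finite ↥G.tables := G.finite
  refine ⟨Dat (T ⊕ N) ⊕ St (T ⊕ N) ↥G.tables, inferInstance, (sim G).toSys, (sim G).restricted, ?_⟩
  rw [(sim G).lang_eq (sim_fine G), sim_lang]

theorem subset_et0l (k : ℕ) (T : Type) : ET0Lr k T ⊆ ET0L T := by
  rintro L ⟨N, hN, G, _, rfl⟩
  exact ⟨N, hN, G, rfl⟩

theorem et0lr_mono {k l : ℕ} (h : k ≤ l) (T : Type) : ET0Lr k T ⊆ ET0Lr l T := by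
  rintro L ⟨N, hN, G, hG, rfl⟩
  exact ⟨N, hN, G, fun t ht => (hG t ht).trans (by exact_mod_cast h), rfl⟩

/-- **The hierarchy collapses at level three.** -/
theorem et0lr_eq {k : ℕ} (hk : 3 ≤ k) (T : Type) [Finite T] : ET0Lr k T = ET0L T :=
  Set.Subset.antisymm (subset_et0l k T) ((et0l_subset T).trans (et0lr_mono hk T))

end Pool.Agent.Q321.EL
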